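import Pool.Graph.R_seed8.Results.MP_0880e2_an.CircleLineEquivalence

/-!
Quantitative equivalence of the Fourier decomposition properties on the circle and on the line.
-/

set_option autoImplicit false

namespace Pool.Agent.KS6_11.CirLin

open MeasureTheory Set Filter Topology Pool.Agent.R955.FD
open scoped ENNReal FourierTransform

universe u

/-- `X` has upper `ℓ^q(L^p)`-decompositions on the circle with constant `U`. -/
def UpperTc (X : Type u) [NormedAddCommGroup X] [NormedSpace ℂ X] (p q : ℝ≥0∞) (U : ℝ) : Prop :=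
  ∀ J : ℕ → Set ℤ, IsIntPart J → ∀ c : ℤ →₀ X,
    nT p (trig c) ≤ ENNReal.ofReal U * lq q (fun i => nT p (DT (J i) c))

/-- `X` has lower `ℓ^q(L^p)`-decompositions on the circle with constant `L`. -/
def LowerTc (X : Type u) [NormedAddCommGroup X] [NormedSpace ℂ X] (p q : ℝ≥0∞) (L : ℝ) : Prop :=
  ∀ J : ℕ → Set ℤ, IsIntPart J → ∀ c : ℤ →₀ X,
    lq q (fun i => nT p (DT (J i) c)) ≤ ENNReal.ofReal L * nT p (trig c)

/-- `X` has upper `ℓ^q(L^p)`-decompositions on the line with constant `U`. -/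
def UpperRc (X : Type u) [NormedAddCommGroup X] [NormedSpace ℂ X] (p q : ℝ≥0∞) (U : ℝ) : Prop :=
  ∀ J : ℕ → Set ℝ, IsIntPart J → ∀ f : ℝ → X, IsSc f →
    nR p f ≤ ENNReal.ofReal U * lq q (fun i => nR p (DR (J i) f))

/-- `X` has lower `ℓ^q(L^p)`-decompositions on the line with constant `L`. -/
def LowerRc (X : Type u) [NormedAddCommGroup X] [NormedSpace ℂ X] (p q : ℝ≥0∞) (L : ℝ) : Prop :=
  ∀ J : ℕ → Set ℝ, IsIntPart J → ∀ f : ℝ → X, IsSc f →
    lq q (fun i => nR p (DR (J i) f)) ≤ ENNReal.ofReal L * nR p f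

/-- (NRM) with a constant which does not depend on the space -/
def S_NRMu : Prop := ∀ (φ : SchwartzMap ℝ ℂ) (C : ℝ),
  (∀ t ∈ Icc (0 : ℝ) 1, 1 / 2 ≤ ‖φ t‖) → (∀ t, ‖φ t‖ ≤ C / (1 + t ^ 2)) → ∃ C' : ℝ, 0 < C' ∧
    ∀ (X : Type u) [NormedAddCommGroup X] [NormedSpace ℂ X]
      (p : ℝ≥0∞) (c : ℤ →₀ X), 1 ≤ p → nT p (trig c) ≤ 2 * nR p (fun t => φ t • trig c t) ∧
      nR p (fun t => φ t • trig c t) ≤ ENNReal.ofReal C' * nT p (trig c)

section
open Pool.Agent.R783.FDNRM

theorem t_NRMu : S_NRMu.{u} := by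
  intro φ C hlow hup
  have hC : 0 < C := by
    have h1 := hlow 0 (by simp)
    have h2 := hup 0
    simp at h2
    linarith
  have hW' : max 1 W ≠ ∞ := by
    exact (max_lt ENNReal.one_lt_top (lt_top_iff_ne_top.2 W_ne_top)).ne
  have hW1 : 1 ≤ (max 1 W).toReal := by
    have : (1:ℝ≥0∞) ≤ max 1 W := le_max_left _ _
    exact (ENNReal.toReal_mono hW' this)
  refine ⟨C * (max 1 W).toReal, by positivity, ?_⟩
  intro X _ _ p c hp
  have hC' : ENNReal.ofReal (C * (max 1 W).toReal) = ENNReal.ofReal C * max 1 W := by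
    rw [ENNReal.ofReal_mul hC.le, ENNReal.ofReal_toReal hW']
  refine ⟨?_, ?_⟩
  · unfold nT nR
    have h1 : eLpNorm (trig c) p (volume.restrict (Ioc (0:ℝ) 1)) ≤
        ENNReal.ofReal 2 * eLpNorm (fun t => φ t • trig c t) p (volume.restrict (Ioc (0:ℝ) 1)) := by
      refine eLpNorm_le_mul_eLpNorm_of_ae_le_mul ?_ p
      refine ae_restrict_of_forall_mem measurableSet_Ioc (fun t ht => ?_)
      have h2 := hlow t ⟨ht.1.le, ht.2⟩
      rw [norm_smul]
      nlinarith [norm_nonneg (trig c t)]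
    have h2 : eLpNorm (fun t => φ t • trig c t) p (volume.restrict (Ioc (0:ℝ) 1)) ≤
        eLpNorm (fun t => φ t • trig c t) p volume := eLpNorm_mono_measure _ Measure.restrict_le_self
    calc eLpNorm (trig c) p (volume.restrict (Ioc (0:ℝ) 1)) ≤
        ENNReal.ofReal 2 * eLpNorm (fun t => φ t • trig c t) p (volume.restrict (Ioc (0:ℝ) 1)) := h1
      _ ≤ 2 * eLpNorm (fun t => φ t • trig c t) p volume := by
        rw [ENNReal.ofReal_ofNat]
        gcongr
  · rw [hC']
    unfold nT nR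
    by_cases hpt : p = ∞
    · rw [hpt, eLpNorm_exponent_top, eLpNorm_exponent_top]
      refine (top_case φ C hC.le hup c).trans ?_
      calc ENNReal.ofReal C * eLpNormEssSup (trig c) (volume.restrict (Ioc (0:ℝ) 1))
          = ENNReal.ofReal C * 1 * eLpNormEssSup (trig c) (volume.restrict (Ioc (0:ℝ) 1)) := by
            rw [mul_one]
        _ ≤ _ := by
            gcongr
            exact le_max_left _ _
    · have hp0 : p ≠ 0 := (lt_of_lt_of_le zero_lt_one hp).ne'
      have hq : 1 ≤ p.toReal := by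
        have := ENNReal.toReal_mono hpt hp
        simpa using this
      have hq0 : 0 < p.toReal := by linarith
      rw [eLpNorm_eq_lintegral_rpow_enorm_toReal hp0 hpt,
        eLpNorm_eq_lintegral_rpow_enorm_toReal hp0 hpt]
      have h1 := fin_case φ C hC.le hup c p.toReal hq
      have hinv : 0 ≤ 1 / p.toReal := by positivity
      have h2 := ENNReal.rpow_le_rpow h1 hinv
      refine h2.trans ?_
      rw [ENNReal.mul_rpow_of_nonneg _ _ hinv, ENNReal.mul_rpow_of_nonneg _ _ hinv,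
        ← ENNReal.rpow_mul, mul_one_div_cancel hq0.ne', ENNReal.rpow_one]
      gcongr
      calc W ^ (1 / p.toReal) ≤ (max 1 W) ^ (1 / p.toReal) :=
            ENNReal.rpow_le_rpow (le_max_right _ _) hinv
        _ ≤ (max 1 W) ^ (1:ℝ) := by
            refine ENNReal.rpow_le_rpow_of_exponent_le (le_max_left _ _) ?_
            rw [div_le_one hq0]
            exact hq
        _ = max 1 W := ENNReal.rpow_one _

end

theorem rtt (h1 : S_KER) (h2 : S_NRMu.{u}) (h3 : S_DRT.{u}) (h4 : S_LQ) :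
    ∃ K : ℝ, 1 ≤ K ∧ ∀ (X : Type u) [NormedAddCommGroup X] [NormedSpace ℂ X] [CompleteSpace X]
      (p q : ℝ≥0∞), 1 ≤ p → 1 ≤ q →
      (∀ U : ℝ, 0 < U → UpperRc X p q U → UpperTc X p q (K * U)) ∧
      (∀ L : ℝ, 0 < L → LowerRc X p q L → LowerTc X p q (K * L)) := by
  obtain ⟨φ, hmod, hvan, hhalf, C, hC, hdec⟩ := h1
  obtain ⟨C', hC', hN0⟩ := h2 (φ 0) C hhalf hdec
  refine ⟨max 1 (2 * C'), le_max_left _ _, ?_⟩
  intro X _ _ _ p q hp hq
  have hN := hN0 X
  obtain ⟨hmono, -, hhom, -, -⟩ := h4 q hq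
  have hDT : ∀ (I : Set ℤ) (c : ℤ →₀ X), DT I c = trig (by classical exact c.filter fun n => n ∈ I) := by
    intro I c
    rfl
  have hlow : ∀ (I : Set ℤ) (c : ℤ →₀ X), nT p (DT I c) ≤ 2 * nR p (fun t => φ 0 t • DT I c t) := by
    intro I c
    rw [hDT]
    exact (hN p _ hp).1
  have hup : ∀ (I : Set ℤ) (c : ℤ →₀ X),
      nR p (fun t => φ 0 t • DT I c t) ≤ ENNReal.ofReal C' * nT p (DT I c) := by
    intro I c
    rw [hDT]
    exact (hN p _ hp).2
  have hmax : ∀ U : ℝ, 0 < U → ENNReal.ofReal (2 * U * C') ≤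
      ENNReal.ofReal (max 1 (2 * C') * U) := by
    intro U hU
    apply ENNReal.ofReal_le_ofReal
    have := mul_le_mul_of_nonneg_right (le_max_right 1 (2 * C')) hU.le
    linarith
  constructor
  · intro U hU h J hJ c
    obtain ⟨J', hJ', hd⟩ := h3 X φ hmod hvan J hJ
    obtain ⟨hsc, hD⟩ := hd c
    calc nT p (trig c) ≤ 2 * nR p (fun t => φ 0 t • trig c t) := (hN p c hp).1
      _ ≤ 2 * (ENNReal.ofReal U * lq q (fun i => nR p (DR (J' i) (fun t => φ 0 t • trig c t)))) := by
          gcongr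
          exact h J' hJ' _ hsc
      _ ≤ 2 * (ENNReal.ofReal U * lq q (fun i => ENNReal.ofReal C' * nT p (DT (J i) c))) := by
          gcongr
          apply hmono
          intro i
          rw [hD i]
          exact hup (J i) c
      _ = ENNReal.ofReal (2 * U * C') * lq q (fun i => nT p (DT (J i) c)) := by
          rw [hhom, ENNReal.ofReal_mul (by positivity), ENNReal.ofReal_mul (by positivity)]
          simp only [ENNReal.ofReal_ofNat]
          ring
      _ ≤ _ := mul_le_mul' (hmax U hU) le_rfl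
  · intro L hL h J hJ c
    obtain ⟨J', hJ', hd⟩ := h3 X φ hmod hvan J hJ
    obtain ⟨hsc, hD⟩ := hd c
    calc lq q (fun i => nT p (DT (J i) c))
        ≤ lq q (fun i => 2 * nR p (DR (J' i) (fun t => φ 0 t • trig c t))) := by
          apply hmono
          intro i
          rw [hD i]
          exact hlow (J i) c
      _ = 2 * lq q (fun i => nR p (DR (J' i) (fun t => φ 0 t • trig c t))) := hhom 2 _
      _ ≤ 2 * (ENNReal.ofReal L * nR p (fun t => φ 0 t • trig c t)) := by
          gcongr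
          exact h J' hJ' _ hsc
      _ ≤ 2 * (ENNReal.ofReal L * (ENNReal.ofReal C' * nT p (trig c))) := by
          gcongr
          exact (hN p c hp).2
      _ = ENNReal.ofReal (2 * L * C') * nT p (trig c) := by
          rw [ENNReal.ofReal_mul (by positivity), ENNReal.ofReal_mul (by positivity)]
          simp only [ENNReal.ofReal_ofNat]
          ring
      _ ≤ _ := mul_le_mul' (hmax L hL) le_rfl

section
open Pool.Agent.R510.FDUPP

theorem upp (h1 : S_BRI.{u}) (h2 : S_DEC.{u}) (h3 : S_SML.{u}) (h4 : S_COV) (h5 : S_FIN.{u}) :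
    ∀ (X : Type u) [NormedAddCommGroup X] [NormedSpace ℂ X] [CompleteSpace X] (p q : ℝ≥0∞),
    1 < p → 1 ≤ q → ∀ U : ℝ, 0 < U → UpperTc X p q U → UpperRc X p q (U * (Real.pi / 2)) := by
  intro X _ _ _ p q hp hq U hU0 hU J hJ f hf
  obtain ⟨A, L, hN, hfe, hDR⟩ := h1 X f hf
  set g := 𝓕 f with hg
  obtain ⟨C, hC, hD1, _⟩ := h2 X g A L hN
  have hmeas : ∀ K : Set ℝ, K.OrdConnected → AEStronglyMeasurable (Ext g K) volume := fun K hK =>
    (hD1 K hK).1.aestronglyMeasurable
  have htri : Tri fun I => nR p (Ext g I) := by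
    refine ⟨?_, fun K M hK hM hKM hd => ?_⟩
    · simp only [ext_empty, nR]
      exact eLpNorm_zero
    · have hadd := ext_union hN hM hd
      refine ⟨?_, ?_⟩
      · simp only [nR]
        rw [hadd]
        exact eLpNorm_add_le (hmeas K hK) (hmeas M hM) hp.le
      · simp only [nR]
        have : Ext g K = Ext g (K ∪ M) - Ext g M := by
          rw [hadd]; simp
        rw [this]
        exact eLpNorm_sub_le (hmeas _ hKM) (hmeas M hM) hp.le
  have hsml : ∀ ε' : ℝ, 0 < ε' → ∃ κ : ℝ, 0 < κ ∧ ∀ (a : ℝ) (K : Set ℝ), K.OrdConnected →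
      K ⊆ Icc a (a + κ) → nR p (Ext g K) ≤ ENNReal.ofReal ε' := h3 X g A L p hN hp
  have key : ∀ ε : ℝ, 0 < ε → nR p f ≤ ENNReal.ofReal (U * (Real.pi / 2)) *
      (lq q (fun i => nR p (Ext g (J i))) + ENNReal.ofReal ε) := by
    intro ε hε
    obtain ⟨J', hJ', hfin, hle⟩ := h4 (fun I => nR p (Ext g I)) q J A ε htri hq hJ hsml hε
    have := h5 X g A L U p q J' hN hp hq hU0 hU hJ' hfin
    rw [← hfe] at this
    exact this.trans (mul_le_mul' le_rfl hle)
  have hJe : (fun i => nR p (DR (J i) f)) = fun i => nR p (Ext g (J i)) := by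
    funext i
    rw [hDR (J i) (hJ.1 i)]
  rw [hJe]
  set B := lq q (fun i => nR p (Ext g (J i))) with hB
  set c := ENNReal.ofReal (U * (Real.pi / 2)) with hc
  have hlim : Tendsto (fun n : ℕ => c * (B + ENNReal.ofReal (1 / ((n : ℝ) + 1)))) atTop
      (𝓝 (c * (B + 0))) := by
    refine ENNReal.Tendsto.const_mul ?_ (Or.inr ENNReal.ofReal_ne_top)
    refine Tendsto.add tendsto_const_nhds ?_
    have := ENNReal.tendsto_ofReal (tendsto_one_div_add_atTop_nhds_zero_nat (𝕜 := ℝ))
    simpa using this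
  rw [add_zero] at hlim
  exact ge_of_tendsto' hlim fun n => key _ (by positivity)

end

section
open Pool.Agent.R569.FDLOW

theorem low (h1 : S_BRI.{u}) (h2 : S_POI.{u}) (h3 : S_UPL.{u}) (h4 : S_DWN.{u}) (h5 : S_TNC.{u})
    (h6 : S_LQ) (h7 : S_ENL.{u}) (h8 : S_DEC.{u}) :
    ∀ (X : Type u) [NormedAddCommGroup X] [NormedSpace ℂ X] [CompleteSpace X] (p q : ℝ≥0∞),
    1 ≤ p → 1 ≤ q → ∀ L : ℝ, 0 < L → LowerTc X p q L → LowerRc X p q (L * (Real.pi / 2)) := by
  intro X _ _ _ p q hp hq L hL hT J hJ f hf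
  have hpi : 0 < Real.pi / 2 := by positivity
  obtain ⟨A, L0, hg, hfE, hDR⟩ := h1 X f hf
  obtain ⟨q1, q2, q3, q4, q5⟩ := h6 q hq
  set g : ℝ → X := 𝓕 f with hgdef
  -- the upper estimate of the Riemann sums
  obtain ⟨c, hc, hup⟩ : ∃ c : ℕ → ℝ, Tendsto c atTop (𝓝 0) ∧ ∀ N : ℕ, 1 ≤ N →
      ENNReal.ofReal ((N : ℝ) ^ (1 / p.toReal)) * nT p (TN g A N univ) ≤
        ENNReal.ofReal (Real.pi / 2) * (nR p f + ENNReal.ofReal (c N)) := by
    rcases eq_or_lt_of_le hp with hp1 | hp1
    · refine ⟨fun _ => 0, tendsto_const_nhds, ?_⟩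
      intro N hN
      subst hp1
      have h9 := h2 X f A L0 hf hg N hN
      have e1 : (N : ℝ) ^ (1 / (1 : ℝ≥0∞).toReal) = N := by simp
      rw [e1]
      refine h9.trans ?_
      rw [ENNReal.ofReal_zero, add_zero]
      have h10 : (1 : ℝ≥0∞) ≤ ENNReal.ofReal (Real.pi / 2) := by
        rw [← ENNReal.ofReal_one]
        apply ENNReal.ofReal_le_ofReal
        linarith [Real.pi_gt_three]
      calc nR 1 f = 1 * nR 1 f := (one_mul _).symm
        _ ≤ _ := by gcongr
    · obtain ⟨c, hc, h9⟩ := h3 X g A L0 p hg hp1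
      refine ⟨c, hc, ?_⟩
      intro N hN
      have h10 := h9 N hN univ ordConnected_univ
      rwa [← hfE] at h10
  have hcont : ∀ i, Continuous (Ext g (J i)) := by
    obtain ⟨C, hC, h9, -⟩ := h8 X g A L0 hg
    exact fun i => (h9 (J i) (hJ.1 i)).1
  have hDR' : (fun i => nR p (DR (J i) f)) = fun i => nR p (Ext g (J i)) := by
    funext i
    rw [hDR (J i) (hJ.1 i)]
  rw [hDR']
  refine q5 (fun R i => eLpNorm (Ext g (J i)) p (volume.restrict (Icc (-(R : ℝ)) R))) _ _ ?_ ?_ ?_
  · intro R R' i hR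
    exact (h7 X (Ext g (J i)) p (hcont i)).1 R R' hR
  · intro i
    exact (h7 X (Ext g (J i)) p (hcont i)).2
  · intro S R
    obtain ⟨c', hc', hdwn⟩ := h4 X g A L0 p R hg hp
    -- the inequality for every large `N`
    have hmain : ∀ N : ℕ, 1 ≤ N → 2 * R ≤ N →
        lq q (fun i => if i ∈ S then eLpNorm (Ext g (J i)) p (volume.restrict (Icc (-(R : ℝ)) R)) else 0) ≤
          ENNReal.ofReal L * (ENNReal.ofReal (Real.pi / 2) * (nR p f + ENNReal.ofReal (c N))) +
            S.card * ENNReal.ofReal (c' N) := by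
      intro N hN hR
      obtain ⟨t1, t2, t3⟩ := h5 X g A N hN
      have e1 : lq q (fun i => if i ∈ S then
          eLpNorm (Ext g (J i)) p (volume.restrict (Icc (-(R : ℝ)) R)) else 0) ≤
          lq q (fun i => ENNReal.ofReal ((N : ℝ) ^ (1 / p.toReal)) * nT p (TN g A N (J i)) +
            (if i ∈ S then ENNReal.ofReal (c' N) else 0)) := by
        apply q1
        intro i
        by_cases hi : i ∈ S
        · simp only [hi, if_true]
          exact hdwn N hN hR (J i) (hJ.1 i)
        · simp only [hi, if_false]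
          exact zero_le
      have e2 : lq q (fun i => if i ∈ S then ENNReal.ofReal (c' N) else 0) ≤
          S.card * ENNReal.ofReal (c' N) := by
        apply q4
        · intro i hi
          simp [hi]
        · intro i
          by_cases hi : i ∈ S
          · simp [hi]
          · simp [hi]
      have e3 : lq q (fun i => nT p (TN g A N (J i))) ≤
          ENNReal.ofReal L * nT p (TN g A N univ) := by
        have := hT (fun i => pre N (J i)) (t3 J hJ) (smp g A N)
        rw [t1] at this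
        simpa only [t2] using this
      calc _ ≤ _ := e1
        _ ≤ _ := q2 _ _
        _ = ENNReal.ofReal ((N : ℝ) ^ (1 / p.toReal)) * lq q (fun i => nT p (TN g A N (J i))) +
            lq q (fun i => if i ∈ S then ENNReal.ofReal (c' N) else 0) := by rw [q3]
        _ ≤ ENNReal.ofReal ((N : ℝ) ^ (1 / p.toReal)) *
              (ENNReal.ofReal L * nT p (TN g A N univ)) + S.card * ENNReal.ofReal (c' N) := by
            gcongr
        _ = ENNReal.ofReal L * (ENNReal.ofReal ((N : ℝ) ^ (1 / p.toReal)) *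
              nT p (TN g A N univ)) + S.card * ENNReal.ofReal (c' N) := by ring
        _ ≤ _ := add_le_add_left (mul_le_mul_right (hup N hN) _) _
    have hlim : Tendsto (fun N : ℕ =>
        ENNReal.ofReal L * (ENNReal.ofReal (Real.pi / 2) * (nR p f + ENNReal.ofReal (c N))) +
            S.card * ENNReal.ofReal (c' N)) atTop
        (𝓝 (ENNReal.ofReal L * (ENNReal.ofReal (Real.pi / 2) * (nR p f + 0)) + S.card * 0)) := by
      apply Tendsto.add
      · apply ENNReal.Tendsto.const_mul _ (Or.inr ENNReal.ofReal_ne_top)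
        apply ENNReal.Tendsto.const_mul _ (Or.inr ENNReal.ofReal_ne_top)
        exact tendsto_const_nhds.add (tendsto_ofReal_zero hc)
      · exact ENNReal.Tendsto.const_mul (tendsto_ofReal_zero hc') (Or.inr (ENNReal.natCast_ne_top _))
    have hfin := ge_of_tendsto hlim (by
      filter_upwards [eventually_ge_atTop (max 1 (2 * R))] with N hN
      exact hmain N (le_trans (le_max_left _ _) hN) (le_trans (le_max_right _ _) hN))
    refine hfin.trans (le_of_eq ?_)
    rw [add_zero, mul_zero, add_zero, ENNReal.ofReal_mul hL.le, mul_assoc]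

end

section
open Pool.Agent.R64.FDONE

theorem one (h1 : S_BRI.{u}) (h2 : S_DEC.{u}) :
    ∀ (X : Type u) [NormedAddCommGroup X] [NormedSpace ℂ X] [CompleteSpace X],
    UpperRc X 1 1 1 := by
  intro X _ _ _ J hJ f hf
  obtain ⟨A, L, hN, hfe, hD⟩ := h1 X f hf
  obtain ⟨C, _, hC, _⟩ := h2 X (𝓕 f) A L hN
  obtain ⟨g, hg⟩ : ∃ g, g = 𝓕 f := ⟨_, rfl⟩
  rw [← hg] at hN hfe hD hC
  have hmeas : ∀ i, MeasurableSet (J i) := fun i => (hJ.1 i).measurableSet
  have hun : (⋃ i, J i) = univ := by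
    ext x
    simp only [mem_iUnion, mem_univ, iff_true]
    exact hJ.2.2 x
  have hsum : ∀ s, HasSum (fun i => Ext g (J i) s) (Ext g univ s) := by
    intro s
    have := hasSum_integral_iUnion (μ := volume) (f := fun ξ => ch ξ s • g ξ) (s := J) hmeas
      (fun i j hij => hJ.2.1 i j hij) ((nice_int hN s).integrableOn)
    rw [hun] at this
    exact this
  have hlq : ∀ a : ℕ → ℝ≥0∞, lq 1 a = ∑' i, a i := by
    intro a
    unfold lq
    rw [if_neg (by simp)]
    simp
  rw [hlq, ENNReal.ofReal_one, one_mul]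
  have hDR : ∀ i, DR (J i) f = Ext g (J i) := fun i => hD (J i) (hJ.1 i)
  simp only [hDR]
  unfold nR
  simp only [eLpNorm_one_eq_lintegral_enorm]
  rw [← lintegral_tsum (fun i => ((hC (J i) (hJ.1 i)).1.enorm.aemeasurable))]
  apply lintegral_mono
  intro s
  show ‖f s‖ₑ ≤ ∑' i, ‖Ext g (J i) s‖ₑ
  rw [hfe, ← (hsum s).tsum_eq]
  exact enorm_tsum_le_tsum_enorm

end

/-- The constant of an upper estimate with `p = q = 1` on the circle is at least one. -/
theorem one_le_const {X : Type u} [NormedAddCommGroup X] [NormedSpace ℂ X] {U : ℝ}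
    (h : UpperTc X 1 1 U) {x : X} (hx : x ≠ 0) : 1 ≤ U := by
  classical
  let J : ℕ → Set ℤ := fun i => if i = 0 then univ else ∅
  have hJ : IsIntPart J := by
    refine ⟨?_, ?_, ?_⟩
    · intro i
      by_cases hi : i = 0
      · simp only [J, hi, if_true]; exact ordConnected_univ
      · simp only [J, hi, if_false]; exact ordConnected_empty
    · intro i j hij
      by_cases hi : i = 0
      · have hj : j ≠ 0 := fun hj => hij (hi.trans hj.symm)
        simp [J, hj]
      · simp [J, hi]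
    · intro y
      exact ⟨0, by simp [J]⟩
  have h1 := h J hJ (Finsupp.single 0 x)
  have hlq : ∀ a : ℕ → ℝ≥0∞, lq 1 a = ∑' i, a i := by
    intro a
    unfold lq
    rw [if_neg (by simp)]
    simp
  have h0 : DT (J 0) (Finsupp.single (0 : ℤ) x) = trig (Finsupp.single (0 : ℤ) x) := by
    unfold DT
    congr 1
    ext n
    simp [J]
  have hpos : ∀ i, i ≠ 0 → nT 1 (DT (J i) (Finsupp.single (0 : ℤ) x)) = 0 := by
    intro i hi
    have : DT (J i) (Finsupp.single (0 : ℤ) x) = 0 := by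
      unfold DT
      have e : (Finsupp.filter (fun n => n ∈ J i) (Finsupp.single (0 : ℤ) x)) = 0 := by
        ext n
        simp [J, hi]
      rw [e]
      funext t
      simp [trig]
    rw [this]
    unfold nT
    exact eLpNorm_zero
  rw [hlq, tsum_eq_single 0 hpos, h0] at h1
  have htr : trig (Finsupp.single (0 : ℤ) x) = fun _ => x := by
    funext t
    unfold trig
    rw [Finsupp.sum_single_index (by simp)]
    simp [ch]
  have hn : nT 1 (trig (Finsupp.single (0 : ℤ) x)) = ‖x‖ₑ := by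
    rw [htr]
    unfold nT
    rw [eLpNorm_one_eq_lintegral_enorm]
    simp
  rw [hn] at h1
  by_contra hlt
  push Not at hlt
  have hx0 : ‖x‖ₑ ≠ 0 := by simpa using hx
  have h2 : ENNReal.ofReal U * ‖x‖ₑ < 1 * ‖x‖ₑ := by
    rw [ENNReal.mul_lt_mul_iff_left hx0 enorm_ne_top]
    rw [← ENNReal.ofReal_one]
    exact (ENNReal.ofReal_lt_ofReal_iff one_pos).2 hlt
  rw [one_mul] at h2
  exact absurd h1 (not_le.2 h2)

/-- The quantitative equivalence. -/
theorem main : ∃ K : ℝ, 1 ≤ K ∧ ∀ (X : Type u) [NormedAddCommGroup X] [NormedSpace ℂ X]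
    [CompleteSpace X] (p q : ℝ≥0∞), 1 ≤ p → 1 ≤ q → ∀ U : ℝ, 0 < U →
      (UpperTc X p q U → UpperRc X p q (Real.pi / 2 * U)) ∧
      (UpperRc X p q U → UpperTc X p q (K * U)) ∧
      (LowerTc X p q U → LowerRc X p q (Real.pi / 2 * U)) ∧
      (LowerRc X p q U → LowerTc X p q (K * U)) := by
  have hLQ : S_LQ := Pool.Agent.R711.FDLQ.t_LQ
  have hENL : S_ENL.{u} := Pool.Agent.R92.FDENL.t_ENL
  have hRIE : S_RIE.{u} := Pool.Agent.R955.FD.RIE.t_RIE
  have hDEC : S_DEC.{u} := Pool.Agent.R818.FDDEC.t_DEC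
  have hSML : S_SML.{u} := Pool.Agent.R842.FDSML.t_SML hDEC
  have hUPL : S_UPL.{u} := Pool.Agent.R478.FD.t_UPL hRIE hDEC
  have hDWN : S_DWN.{u} := Pool.Agent.R209.FD.t_DWN hRIE
  have hTNC : S_TNC.{u} := Pool.Agent.R860.FD.t_TNC
  have hBRI : S_BRI.{u} := Pool.Agent.R718.FD.t_BRI
  have hPOI : S_POI.{u} := Pool.Agent.R999.FD.t_POI
  have hABS : S_ABS := Pool.Agent.R656.FD.t_ABS hLQ
  have hCOV : S_COV := Pool.Agent.H173FD.t_COV hABS
  have hFIN : S_FIN.{u} := Pool.Agent.R799.FDFIN.t_FIN hUPL hDWN hTNC hLQ hENL hDEC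
  have hTRV : S_TRV.{u} := Pool.Agent.R374.FD.t_TRV
  have hKER : S_KER := Pool.Agent.R955.FD.t_KER
  have hDRT : S_DRT.{u} := Pool.Agent.HP981.FDDRT.t_DRT
  obtain ⟨K, hK, hR⟩ := rtt hKER t_NRMu.{u} hDRT hLQ
  refine ⟨K, hK, ?_⟩
  intro X _ _ _ p q hp hq U hU
  obtain ⟨hR1, hR2⟩ := hR X p q hp hq
  refine ⟨?_, hR1 U hU, ?_, hR2 U hU⟩
  · intro h
    rw [mul_comm]
    rcases lt_or_eq_of_le hp with hp1 | hp1
    · exact upp hBRI hDEC hSML hCOV hFIN X p q hp1 hq U hU h
    · subst hp1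
      rcases lt_or_eq_of_le hq with hq1 | hq1
      · have hX : ∀ x : X, x = 0 := hTRV X q hq1 ⟨U, hU, h⟩
        intro J _ f _
        have hf : f = 0 := by
          funext t
          exact hX _
        have h0 : nR 1 f = 0 := by
          rw [hf]
          exact eLpNorm_zero
        rw [h0]
        exact bot_le
      · subst hq1
        intro J hJ f hf
        by_cases hX : ∀ x : X, x = 0
        · have hf0 : f = 0 := by
            funext t
            exact hX _
          have h0 : nR 1 f = 0 := by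
            rw [hf0]
            exact eLpNorm_zero
          rw [h0]
          exact bot_le
        · push Not at hX
          obtain ⟨x, hx⟩ := hX
          have h1 : 1 ≤ U := one_le_const h hx
          refine (one hBRI hDEC X J hJ f hf).trans (mul_le_mul' ?_ le_rfl)
          apply ENNReal.ofReal_le_ofReal
          nlinarith [Real.pi_gt_three]
  · intro h
    rw [mul_comm]
    exact low hBRI hPOI hUPL hDWN hTNC hLQ hENL hDEC X p q hp hq U hU h

end Pool.Agent.KS6_11.CirLin
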